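import Pool.Agent.Results.MP_6b55e5_an.RogersQ2

set_option autoImplicit false

/-! A compact Besicovitch set in the plane, from the finite stages of `RogersQ2`. -/

namespace Pool.Agent.W770.StripC

open MeasureTheory Pool.Agent.Results.MP_6b55e5_an.RogersQ2

theorem stage_list (δ : ℝ) (hδ : 0 < δ) (Q : List ℝ) : ∀ ε : ℝ, 0 < ε →
    ∃ F : List (ℝ × ℝ × ℝ), (∀ f ∈ F, 0 < f.2.2) ∧ tot F ≤ ε ∧ ∃ ρ > 0,
      ∀ q ∈ Q, ∀ a, -1 ≤ a → a ≤ 1 → ∃ b0, |b0 - q| ≤ δ ∧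
        ∀ b, |b - b0| < ρ → ∀ x, 0 ≤ x → x ≤ 1 → blk F a b x := by
  induction Q with
  | nil =>
    intro ε hε
    exact ⟨[], by simp, by simpa [tot] using hε.le, 1, one_pos, by simp⟩
  | cons q Q ih =>
    intro ε hε
    obtain ⟨F, hF0, hF1, ρ, hρ, hF2⟩ := stage q δ (ε / 2) hδ (by linarith)
    obtain ⟨G, hG0, hG1, ρ', hρ', hG2⟩ := ih (ε / 2) (by linarith)
    refine ⟨F ++ G, ?_, ?_, min ρ ρ', lt_min hρ hρ', ?_⟩
    · intro f hf
      rcases List.mem_append.1 hf with h | h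
      · exact hF0 f h
      · exact hG0 f h
    · rw [tot_append]; linarith
    · intro q' hq' a ha1 ha2
      rcases List.mem_cons.1 hq' with rfl | h
      · obtain ⟨b0, hb0, hb⟩ := hF2 a ha1 ha2
        exact ⟨b0, hb0, fun b hbb x hx0 hx1 =>
          blk_append_left G (hb b (hbb.trans_le (min_le_left _ _)) x hx0 hx1)⟩
      · obtain ⟨b0, hb0, hb⟩ := hG2 q' h a ha1 ha2
        exact ⟨b0, hb0, fun b hbb x hx0 hx1 =>
          blk_append_right F (hb b (hbb.trans_le (min_le_right _ _)) x hx0 hx1)⟩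

/-- near every intercept there is a good one -/
theorem stage_all (δ ε : ℝ) (hδ : 0 < δ) (hε : 0 < ε) :
    ∃ F : List (ℝ × ℝ × ℝ), (∀ f ∈ F, 0 < f.2.2) ∧ tot F ≤ ε ∧ ∃ ρ > 0, ρ ≤ δ ∧
      ∀ a, -1 ≤ a → a ≤ 1 → ∀ c, |c| ≤ 2 → ∃ b0, |b0 - c| ≤ δ ∧
        ∀ b, |b - b0| < ρ → ∀ x, 0 ≤ x → x ≤ 1 → blk F a b x := by
  set N : ℕ := ⌈8 / δ⌉₊ + 1 with hN
  obtain ⟨F, hF0, hF1, ρ, hρ, hF2⟩ := stage_list (δ / 2) (by linarith)
    ((List.range N).map (fun i : ℕ => -2 + (i:ℝ) * (δ / 2))) ε hε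
  refine ⟨F, hF0, hF1, min ρ δ, lt_min hρ hδ, min_le_right _ _, ?_⟩
  intro a ha1 ha2 c hc
  rw [abs_le] at hc
  have h0 : 0 ≤ (c + 2) / (δ / 2) := div_nonneg (by linarith) (by linarith)
  set i : ℕ := ⌊(c + 2) / (δ / 2)⌋₊ with hi
  have hi1 : (i:ℝ) ≤ (c + 2) / (δ / 2) := Nat.floor_le h0
  have hi2 : (c + 2) / (δ / 2) < i + 1 := Nat.lt_floor_add_one _
  rw [le_div_iff₀ (by linarith)] at hi1
  rw [div_lt_iff₀ (by linarith)] at hi2
  have hiN : i < N := by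
    have h1 : (c + 2) / (δ / 2) ≤ 8 / δ := by
      rw [div_le_div_iff₀ (by linarith) hδ]
      nlinarith
    have h2 : i ≤ ⌈8 / δ⌉₊ := by
      rw [hi]
      exact (Nat.floor_le_floor h1).trans (Nat.floor_le_ceil _)
    omega
  obtain ⟨b0, hb0, hb⟩ := hF2 (-2 + (i:ℝ) * (δ / 2))
    (List.mem_map.2 ⟨i, List.mem_range.2 hiN, rfl⟩) a ha1 ha2
  refine ⟨b0, ?_, fun b hbb x hx0 hx1 => hb b (hbb.trans_le (min_le_left _ _)) x hx0 hx1⟩
  rw [abs_le] at hb0 ⊢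
  constructor <;> linarith [hb0.1, hb0.2]

/-- finite covers of arbitrarily small total width with a common selection of intercepts -/
theorem finite_selection :
    ∃ F : ℕ → List (ℝ × ℝ × ℝ), (∀ n, ∀ f ∈ F n, 0 < f.2.2) ∧
      (∀ n, tot (F n) ≤ 1 / ((n : ℝ) + 1)) ∧
      ∀ a, -1 ≤ a → a ≤ 1 → ∃ b, |b| ≤ 2 ∧ ∀ n, ∀ x, 0 ≤ x → x ≤ 1 → blk (F n) a b x := by
  have hst : ∀ (n : ℕ) (δ : {δ : ℝ // 0 < δ}), ∃ (F : List (ℝ × ℝ × ℝ)) (ρ : {δ : ℝ // 0 < δ}),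
      (∀ f ∈ F, 0 < f.2.2) ∧ tot F ≤ 1 / ((n : ℝ) + 1) ∧ ρ.1 ≤ δ.1 / 4 ∧
      ∀ a, -1 ≤ a → a ≤ 1 → ∀ c, |c| ≤ 2 → ∃ b0, |b0 - c| ≤ δ.1 / 4 ∧
        ∀ b, |b - b0| < ρ.1 → ∀ x, 0 ≤ x → x ≤ 1 → blk F a b x := by
    intro n δ
    obtain ⟨F, hF0, hF1, ρ, hρ, hρδ, hF2⟩ := stage_all (δ.1 / 4) (1 / ((n : ℝ) + 1))
      (by have := δ.2; linarith) (by positivity)
    exact ⟨F, ⟨ρ, hρ⟩, hF0, hF1, hρδ, hF2⟩
  choose F R hF0 hF1 hR hB using hst
  -- the radii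
  let r : ℕ → {δ : ℝ // 0 < δ} := fun n => Nat.rec ⟨1, one_pos⟩ (fun n δ => R n δ) n
  have hr0 : (r 0).1 = 1 := rfl
  have hrs : ∀ n, r (n + 1) = R n (r n) := fun n => rfl
  have hr4 : ∀ n, (r (n + 1)).1 ≤ (r n).1 / 4 := fun n => by rw [hrs]; exact hR n (r n)
  refine ⟨fun n => F n (r n), fun n => hF0 n (r n), fun n => hF1 n (r n), ?_⟩
  intro a ha1 ha2
  choose B hB1 hB2 using fun n => hB n (r n) a ha1 ha2
  -- the intercepts
  have hB' : ∀ n c, ∃ b0, |c| ≤ 2 → |b0 - c| ≤ (r n).1 / 4 ∧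
        ∀ b, |b - b0| < (r (n + 1)).1 → ∀ x, 0 ≤ x → x ≤ 1 → blk (F n (r n)) a b x := by
    intro n c
    by_cases hc : |c| ≤ 2
    · obtain ⟨b0, h1, h2⟩ := hB n (r n) a ha1 ha2 c hc
      exact ⟨b0, fun _ => ⟨h1, h2⟩⟩
    · exact ⟨0, fun h => absurd h hc⟩
  choose G hG using hB'
  let b : ℕ → ℝ := fun n => Nat.rec 0 (fun n c => G n c) n
  have hb0 : b 0 = 0 := rfl
  have hbs : ∀ n, b (n + 1) = G n (b n) := fun n => rfl
  have hbb : ∀ n, |b n| ≤ 1 - (r n).1 / 3 := by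
    intro n
    induction n with
    | zero => rw [hb0, hr0]; norm_num
    | succ n ih =>
      have hrn := (r n).2
      have h1 := (hG n (b n) (by linarith)).1
      rw [← hbs] at h1
      have h2 := hr4 n
      have h3 : |b (n + 1)| ≤ |b (n + 1) - b n| + |b n| := by
        have := abs_add_le (b (n + 1) - b n) (b n)
        rwa [sub_add_cancel] at this
      have h4 := (r (n + 1)).2
      linarith
  have hstep : ∀ n, |b (n + 1) - b n| ≤ (r n).1 / 4 ∧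
      ∀ b', |b' - b (n + 1)| < (r (n + 1)).1 → ∀ x, 0 ≤ x → x ≤ 1 → blk (F n (r n)) a b' x := by
    intro n
    have hrn := (r n).2
    have := hG n (b n) (by linarith [hbb n])
    rw [hbs]
    exact this
  -- the tails
  have htail : ∀ n k, |b (n + k) - b n| ≤ ((r n).1 - (r (n + k)).1) / 3 := by
    intro n k
    induction k with
    | zero => simp
    | succ k ih =>
      have h1 := (hstep (n + k)).1
      have h2 := hr4 (n + k)
      have h3 := abs_add_le (b (n + k + 1) - b (n + k)) (b (n + k) - b n)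
      rw [sub_add_sub_cancel] at h3
      have e : n + (k + 1) = n + k + 1 := by omega
      rw [e]
      linarith
  have hrsmall : ∀ n, (r n).1 ≤ (1 / 4) ^ n := by
    intro n
    induction n with
    | zero => rw [hr0]; norm_num
    | succ n ih =>
      have := hr4 n
      rw [pow_succ]
      linarith
  have hcau : CauchySeq b := by
    refine cauchySeq_of_le_geometric (1 / 4) 1 (by norm_num) (fun n => ?_)
    rw [Real.dist_eq, abs_sub_comm]
    have := (hstep n).1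
    have := hrsmall n
    have := (r n).2
    linarith
  obtain ⟨β, hβ⟩ := cauchySeq_tendsto_of_complete hcau
  have hlim : ∀ n, |β - b n| ≤ (r n).1 / 3 := by
    intro n
    have h1 : Filter.Tendsto (fun k => |b (n + k) - b n|) Filter.atTop (nhds |β - b n|) := by
      have h2 : Filter.Tendsto (fun k => b (n + k)) Filter.atTop (nhds β) := by
        have := (Filter.tendsto_add_atTop_iff_nat n).2 hβ
        refine this.congr (fun k => by rw [add_comm])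
      exact (h2.sub_const (b n)).abs
    refine le_of_tendsto' h1 (fun k => ?_)
    have := htail n k
    have := (r (n + k)).2
    linarith
  refine ⟨β, ?_, fun n x hx0 hx1 => ?_⟩
  · have h1 := hlim 0
    rw [hb0, hr0, sub_zero] at h1
    linarith
  · refine (hstep n).2 β ?_ x hx0 hx1
    have := hlim (n + 1)
    have := (r (n + 1)).2
    linarith

/-- the area under a finite family -/
theorem volume_list (F : List (ℝ × ℝ × ℝ)) (hF : ∀ f ∈ F, 0 < f.2.2) :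
    volume {v : Plane | ∃ f ∈ F, 0 ≤ v 0 ∧ v 0 ≤ 1 ∧ |v 1 - f.1 * v 0 - f.2.1| ≤ f.2.2} ≤
      ENNReal.ofReal (2 * tot F) := by
  induction F with
  | nil => simp
  | cons f F ih =>
    have h1 : {v : Plane | ∃ g ∈ f :: F, 0 ≤ v 0 ∧ v 0 ≤ 1 ∧ |v 1 - g.1 * v 0 - g.2.1| ≤ g.2.2} ⊆
        {v : Plane | 0 ≤ v 0 ∧ v 0 ≤ 1 ∧ |v 1 - f.1 * v 0 - f.2.1| ≤ f.2.2} ∪
        {v : Plane | ∃ g ∈ F, 0 ≤ v 0 ∧ v 0 ≤ 1 ∧ |v 1 - g.1 * v 0 - g.2.1| ≤ g.2.2} := by
      rintro v ⟨g, hg, hv⟩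
      rcases List.mem_cons.1 hg with rfl | h
      · exact Or.inl hv
      · exact Or.inr ⟨g, h, hv⟩
    have htot : 0 ≤ tot F := by
      apply List.sum_nonneg
      intro z hz
      obtain ⟨g, hg, rfl⟩ := List.mem_map.1 hz
      exact (hF g (List.mem_cons_of_mem _ hg)).le
    have hf := hF f List.mem_cons_self
    refine (measure_mono h1).trans ((measure_union_le _ _).trans ?_)
    refine (add_le_add (volume_piece _ _ _)
      (ih (fun g hg => hF g (List.mem_cons_of_mem _ hg)))).trans ?_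
    rw [← ENNReal.ofReal_add (by linarith) (by linarith), tot_cons]
    apply ENNReal.ofReal_le_ofReal
    linarith

/-- **A compact Besicovitch set.** -/
theorem exists_compact : ∃ E : Set Plane, IsCompact E ∧ IsBesicovitch E := by
  obtain ⟨F, hF0, hF1, hF2⟩ := finite_selection
  choose! b hb1 hb2 using hF2
  -- the compact set of parameters
  set Γ : Set (ℝ × ℝ) := {z | (z.1 ∈ Set.Icc (-1:ℝ) 1 ∧ z.2 ∈ Set.Icc (-2:ℝ) 2) ∧
    ∀ n : ℕ, ∀ x : ℝ, 0 ≤ x → x ≤ 1 → blk (F n) z.1 z.2 x} with hΓ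
  have hΓclosed : IsClosed Γ := by
    have h1 : IsClosed {z : ℝ × ℝ | z.1 ∈ Set.Icc (-1:ℝ) 1 ∧ z.2 ∈ Set.Icc (-2:ℝ) 2} :=
      (isClosed_Icc.preimage continuous_fst).inter (isClosed_Icc.preimage continuous_snd)
    have h2 : ∀ n : ℕ, ∀ x : ℝ, IsClosed {z : ℝ × ℝ | blk (F n) z.1 z.2 x} := by
      intro n x
      have e : {z : ℝ × ℝ | blk (F n) z.1 z.2 x} = ⋃ f ∈ {f | f ∈ F n},
          {z : ℝ × ℝ | |(z.1 - f.1) * x + (z.2 - f.2.1)| ≤ f.2.2} := by
        ext z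
        simp [blk]
      rw [e]
      apply Set.Finite.isClosed_biUnion (List.finite_toSet (F n))
      intro f _
      exact isClosed_le (by fun_prop) continuous_const
    have e : Γ = {z : ℝ × ℝ | z.1 ∈ Set.Icc (-1:ℝ) 1 ∧ z.2 ∈ Set.Icc (-2:ℝ) 2} ∩
        ⋂ n : ℕ, ⋂ x : ℝ, ⋂ _ : 0 ≤ x, ⋂ _ : x ≤ 1, {z : ℝ × ℝ | blk (F n) z.1 z.2 x} := by
      ext z
      simp [hΓ]
    rw [e]
    exact h1.inter (isClosed_iInter fun n => isClosed_iInter fun x => isClosed_iInter fun _ =>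
      isClosed_iInter fun _ => h2 n x)
  have hΓcpt : IsCompact Γ :=
    (isCompact_Icc.prod isCompact_Icc : IsCompact (Set.Icc (-1:ℝ) 1 ×ˢ Set.Icc (-2:ℝ) 2)).of_isClosed_subset
      hΓclosed (fun z hz => hz.1)
  set g : (ℝ × ℝ) × ℝ → Plane := fun p => !₂[p.2, p.1.1 * p.2 + p.1.2] with hg
  have hgc : Continuous g := by
    rw [hg]
    refine (PiLp.continuous_toLp 2 _).comp ?_
    refine continuous_pi (fun i => ?_)
    fin_cases i
    · simp; fun_prop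
    · simp; fun_prop
  set E0 : Set Plane := g '' (Γ ×ˢ Set.Icc (0:ℝ) 1) with hE0
  have hE0c : IsCompact E0 := (hΓcpt.prod isCompact_Icc).image hgc
  have hswc : Continuous sw := by
    refine (PiLp.continuous_toLp 2 _).comp ?_
    refine continuous_pi (fun i => ?_)
    fin_cases i
    · simp; fun_prop
    · simp; fun_prop
  have hsw2 : ∀ v, sw (sw v) = v := by
    intro v
    ext i
    fin_cases i <;> simp [sw]
  set E1 : Set Plane := sw '' E0 with hE1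
  have hE1c : IsCompact E1 := hE0c.image hswc
  have hnull0 : volume E0 = 0 := by
    have hsub : ∀ n, E0 ⊆
        {v : Plane | ∃ f ∈ F n, 0 ≤ v 0 ∧ v 0 ≤ 1 ∧ |v 1 - f.1 * v 0 - f.2.1| ≤ f.2.2} := by
      rintro n _ ⟨⟨⟨a, b'⟩, x⟩, ⟨⟨-, hz⟩, hx0, hx1⟩, rfl⟩
      obtain ⟨f, hf, hfx⟩ := hz n x hx0 hx1
      refine ⟨f, hf, by simpa [hg] using hx0, by simpa [hg] using hx1, ?_⟩
      have e : (g ((a, b'), x)) 1 - f.1 * (g ((a, b'), x)) 0 - f.2.1 =
          (a - f.1) * x + (b' - f.2.1) := by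
        simp [hg]; ring
      rw [e]
      exact hfx
    have hlim : Filter.Tendsto (fun n : ℕ => ENNReal.ofReal (2 * (1 / ((n : ℝ) + 1))))
        Filter.atTop (nhds 0) := by
      have h1 : Filter.Tendsto (fun n : ℕ => (2:ℝ) * (1 / ((n : ℝ) + 1))) Filter.atTop
          (nhds (2 * 0)) := tendsto_one_div_add_atTop_nhds_zero_nat.const_mul 2
      rw [mul_zero] at h1
      have h2 := ENNReal.tendsto_ofReal h1
      rwa [ENNReal.ofReal_zero] at h2
    refine le_antisymm (ge_of_tendsto' hlim (fun n => ?_)) zero_le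
    refine (measure_mono (hsub n)).trans ((volume_list (F n) (hF0 n)).trans ?_)
    apply ENNReal.ofReal_le_ofReal
    linarith [hF1 n]
  have hnull1 : volume E1 = 0 := by
    have e : E1 = sw ⁻¹' E0 := by
      ext v
      constructor
      · rintro ⟨w, hw, rfl⟩
        change sw (sw w) ∈ E0
        rwa [hsw2]
      · intro hv
        exact ⟨sw v, hv, hsw2 v⟩
    rw [e, measurePreserving_sw.measure_preimage hE0c.isClosed.measurableSet.nullMeasurableSet]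
    exact hnull0
  have hmem0 : ∀ a x : ℝ, -1 ≤ a → a ≤ 1 → 0 ≤ x → x ≤ 1 → (!₂[x, a * x + b a] : Plane) ∈ E0 := by
    intro a x ha1 ha2 hx0 hx1
    have hba := hb1 a ha1 ha2
    rw [abs_le] at hba
    exact ⟨((a, b a), x), ⟨⟨⟨⟨ha1, ha2⟩, hba⟩, fun n x' h0 h1 => hb2 a ha1 ha2 n x' h0 h1⟩,
      hx0, hx1⟩, rfl⟩
  have hmem1 : ∀ a x : ℝ, -1 ≤ a → a ≤ 1 → 0 ≤ x → x ≤ 1 → (!₂[a * x + b a, x] : Plane) ∈ E1 := by
    intro a x ha1 ha2 hx0 hx1
    refine ⟨_, hmem0 a x ha1 ha2 hx0 hx1, ?_⟩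
    ext i
    fin_cases i <;> simp [sw]
  refine ⟨E0 ∪ E1, hE0c.union hE1c, (hE0c.union hE1c).isBounded,
    measure_union_null hnull0 hnull1, ?_⟩
  intro e he
  rw [EuclideanSpace.norm_eq, Real.sqrt_eq_one, Fin.sum_univ_two] at he
  simp only [Real.norm_eq_abs, sq_abs] at he
  -- one-dimensional data
  have seg : ∀ s t : ℝ, s ^ 2 + t ^ 2 = 1 → |t| ≤ |s| → ∃ a m : ℝ, -1 ≤ a ∧ a ≤ 1 ∧
      ∀ θ : ℝ, 0 ≤ θ → θ ≤ 1 → 0 ≤ m + θ * s ∧ m + θ * s ≤ 1 ∧
        (a * m + b a) + θ * t = a * (m + θ * s) + b a := by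
    intro s t hst hts
    have hs : s ≠ 0 := by
      rintro rfl
      simp at hts
      subst hts
      norm_num at hst
    have hs1 : |s| ≤ 1 := by
      rw [abs_le]; constructor <;> nlinarith [sq_nonneg t]
    have ha : |t / s| ≤ 1 := by
      rw [abs_div, div_le_one (abs_pos.2 hs)]
      exact hts
    rw [abs_le] at ha hs1
    refine ⟨t / s, max 0 (-s), ha.1, ha.2, fun θ h0 h1 => ⟨?_, ?_, ?_⟩⟩
    · rcases le_total 0 s with h | h
      · have := le_max_left 0 (-s)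
        nlinarith
      · have := le_max_right 0 (-s)
        nlinarith
    · rcases le_total 0 s with h | h
      · rw [max_eq_left (by linarith)]
        nlinarith
      · rw [max_eq_right (by linarith)]
        nlinarith
    · field_simp
      ring
  have hpt : ∀ (x y θ : ℝ), (!₂[x, y] : Plane) + θ • (!₂[x, y] + e - !₂[x, y]) =
      !₂[x + θ * e 0, y + θ * e 1] := by
    intro x y θ
    ext i
    fin_cases i <;> simp
  rcases le_total |e 1| |e 0| with hc | hc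
  · obtain ⟨a, m, ha1, ha2, h⟩ := seg (e 0) (e 1) he hc
    refine ⟨!₂[m, a * m + b a], ?_⟩
    rw [segment_eq_image']
    rintro v ⟨θ, ⟨h0, h1⟩, rfl⟩
    obtain ⟨g1, g2, g3⟩ := h θ h0 h1
    left
    simp only [hpt]
    rw [g3]
    exact hmem0 a _ ha1 ha2 g1 g2
  · obtain ⟨a, m, ha1, ha2, h⟩ := seg (e 1) (e 0) (by linarith) hc
    refine ⟨!₂[a * m + b a, m], ?_⟩
    rw [segment_eq_image']
    rintro v ⟨θ, ⟨h0, h1⟩, rfl⟩
    obtain ⟨g1, g2, g3⟩ := h θ h0 h1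
    right
    simp only [hpt]
    rw [g3]
    exact hmem1 a _ ha1 ha2 g1 g2

end Pool.Agent.W770.StripC
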