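import Mathlib

set_option autoImplicit false

namespace Pool.Agent.W770.StripA

open MeasureTheory

/-- the strictly increasing jump function `k(t) = ∑ ⌊4^j t⌋ / 8^j` -/
noncomputable def kk (t : ℝ) : ℝ := ∑' j : ℕ, (⌊(4:ℝ) ^ j * t⌋ : ℝ) / 8 ^ j

theorem geo_half : Summable (fun j : ℕ => ((1:ℝ) / 2) ^ j) := summable_geometric_two

theorem term_bound (t : ℝ) (j : ℕ) :
    |(⌊(4:ℝ) ^ j * t⌋ : ℝ) / 8 ^ j| ≤ (|t| + 1) * ((1:ℝ) / 2) ^ j := by
  have h4 : (0:ℝ) < 4 ^ j := by positivity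
  have h1 : |(⌊(4:ℝ) ^ j * t⌋ : ℝ)| ≤ 4 ^ j * |t| + 1 := by
    have h2 := Int.floor_le ((4:ℝ) ^ j * t)
    have h3 := Int.lt_floor_add_one ((4:ℝ) ^ j * t)
    have h5 : |(4:ℝ) ^ j * t| = 4 ^ j * |t| := by rw [abs_mul, abs_of_pos h4]
    have h6 := neg_abs_le ((4:ℝ) ^ j * t)
    have h7 := le_abs_self ((4:ℝ) ^ j * t)
    rw [h5] at h6 h7
    rw [abs_le]
    constructor <;> linarith
  rw [abs_div, abs_of_pos (show (0:ℝ) < 8 ^ j by positivity), div_le_iff₀ (by positivity)]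
  have h8 : ((1:ℝ) / 2) ^ j * 8 ^ j = 4 ^ j := by
    rw [← mul_pow]; norm_num
  rw [mul_assoc, h8]
  have h9 : (1:ℝ) ≤ 4 ^ j := one_le_pow₀ (by norm_num)
  nlinarith [abs_nonneg t]

theorem summ (t : ℝ) : Summable (fun j : ℕ => (⌊(4:ℝ) ^ j * t⌋ : ℝ) / 8 ^ j) :=
  Summable.of_norm_bounded (geo_half.mul_left (|t| + 1)) (fun j => by
    rw [Real.norm_eq_abs]; exact term_bound t j)

theorem term_mono (j : ℕ) {s t : ℝ} (h : s ≤ t) :
    (⌊(4:ℝ) ^ j * s⌋ : ℝ) / 8 ^ j ≤ (⌊(4:ℝ) ^ j * t⌋ : ℝ) / 8 ^ j := by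
  gcongr

theorem kk_mono : Monotone kk := by
  intro s t h
  exact (summ s).tsum_le_tsum (fun j => term_mono j h) (summ t)

/-- one jump -/
theorem kk_jump (n : ℕ) {s t : ℝ} (h : 1 ≤ (4:ℝ) ^ n * (t - s)) : 1 / 8 ^ n ≤ kk t - kk s := by
  have hst : s ≤ t := by
    by_contra hc
    push Not at hc
    have : (4:ℝ) ^ n * (t - s) ≤ 0 := mul_nonpos_of_nonneg_of_nonpos (by positivity) (by linarith)
    linarith
  unfold kk
  rw [← (summ t).tsum_sub (summ s)]
  have h1 : (1:ℝ) / 8 ^ n ≤ (⌊(4:ℝ) ^ n * t⌋ : ℝ) / 8 ^ n - (⌊(4:ℝ) ^ n * s⌋ : ℝ) / 8 ^ n := by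
    rw [← sub_div]
    apply div_le_div_of_nonneg_right _ (by positivity)
    have h2 : ⌊(4:ℝ) ^ n * s⌋ + 1 ≤ ⌊(4:ℝ) ^ n * t⌋ := by
      rw [← Int.floor_add_one]
      apply Int.floor_le_floor
      linarith
    have h3 : ((⌊(4:ℝ) ^ n * s⌋ + 1 : ℤ) : ℝ) ≤ ⌊(4:ℝ) ^ n * t⌋ := by exact_mod_cast h2
    push_cast at h3
    linarith
  refine h1.trans ?_
  exact ((summ t).sub (summ s)).le_tsum n (fun j _ => sub_nonneg.2 (term_mono j hst))

/-- the `3/2`-power lower bound -/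
theorem kk_lower {s t : ℝ} (hst : s < t) (h1 : t - s ≤ 1) :
    ((t - s) / 4) ^ ((3:ℝ) / 2) ≤ kk t - kk s := by
  have h0 : 0 < t - s := by linarith
  -- choose `n` with `4^(-n) ≤ t - s < 4^(1-n)`
  have hex : ∃ n : ℕ, 1 ≤ (4:ℝ) ^ n * (t - s) := by
    obtain ⟨n, hn⟩ := pow_unbounded_of_one_lt (1 / (t - s)) (show (1:ℝ) < 4 by norm_num)
    refine ⟨n, ?_⟩
    rw [div_lt_iff₀ h0] at hn
    exact hn.le
  classical
  set n := Nat.find hex with hn
  have hn1 : 1 ≤ (4:ℝ) ^ n * (t - s) := Nat.find_spec hex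
  have hn2 : (t - s) / 4 ≤ (1 / 4) ^ n := by
    rcases Nat.eq_zero_or_pos n with h | h
    · rw [h, pow_zero]; linarith
    · obtain ⟨m, hm⟩ : ∃ m, n = m + 1 := ⟨n - 1, by omega⟩
      have h3 : ¬ 1 ≤ (4:ℝ) ^ m * (t - s) := Nat.find_min hex (by omega)
      push Not at h3
      rw [hm, pow_succ, one_div_pow]
      have h4 : (0:ℝ) < 4 ^ m := by positivity
      rw [div_mul_div_comm, one_mul, div_le_div_iff₀ (by norm_num) (by positivity)]
      nlinarith
  refine le_trans ?_ (kk_jump n hn1)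
  have h5 : ((t - s) / 4) ^ ((3:ℝ) / 2) ≤ (((1:ℝ) / 4) ^ n) ^ ((3:ℝ) / 2) :=
    Real.rpow_le_rpow (by positivity) hn2 (by norm_num)
  refine h5.trans (le_of_eq ?_)
  have h6 : (((1:ℝ) / 4) ^ n) ^ ((3:ℝ) / 2) = (((1:ℝ) / 4) ^ ((3:ℝ) / 2)) ^ n := by
    rw [← Real.rpow_natCast, ← Real.rpow_mul (by norm_num), mul_comm, Real.rpow_mul (by norm_num),
      Real.rpow_natCast]
  have h7 : ((1:ℝ) / 4) ^ ((3:ℝ) / 2) = 1 / 8 := by
    have : ((1:ℝ) / 4) = ((1:ℝ) / 2) ^ (2:ℝ) := by norm_num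
    rw [this, ← Real.rpow_mul (by norm_num)]
    norm_num
  rw [h6, h7, one_div_pow]

theorem kk_zero : kk 0 = 0 := by simp [kk]

/-- the image of a `4`-adic interval of generation `n` has length at most `8^(-n)` -/
theorem kk_upper (n m : ℕ) {t : ℝ} (h0 : (m:ℝ) / 4 ^ n ≤ t) (h1 : t < ((m:ℝ) + 1) / 4 ^ n) :
    kk t ≤ kk ((m:ℝ) / 4 ^ n) + 1 / 8 ^ n := by
  have h4n : (0:ℝ) < 4 ^ n := by positivity
  have hs : HasSum (fun j : ℕ => if n < j then (1:ℝ) / 8 ^ n * (1 / 2) ^ (j - n) else 0)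
      (1 / 8 ^ n) := by
    have h2 : HasSum (fun j : ℕ => (1:ℝ) / 8 ^ n * (1 / 2) ^ (j + 1)) (1 / 8 ^ n * 1) := by
      apply HasSum.mul_left
      have e : (fun j : ℕ => ((1:ℝ) / 2) ^ (j + 1)) = fun j => 1 / 2 / 2 ^ j := by
        funext j
        rw [pow_succ, one_div_pow]
        field_simp
      rw [e]
      exact hasSum_geometric_two' 1
    rw [mul_one] at h2
    have hinj : Function.Injective (fun j : ℕ => j + (n + 1)) := add_left_injective _
    have h3 := (hinj.hasSum_iff (f := fun j : ℕ =>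
      if n < j then (1:ℝ) / 8 ^ n * (1 / 2) ^ (j - n) else 0) (a := 1 / 8 ^ n) ?_).1 ?_
    · exact h3
    · intro x hx
      rw [if_neg]
      intro hlt
      exact hx ⟨x - (n + 1), by simp only; omega⟩
    · convert h2 using 2 with j
      simp only [Function.comp]
      rw [if_pos (by omega)]
      congr 2
      omega
  have key : ∀ j : ℕ, (⌊(4:ℝ) ^ j * t⌋ : ℝ) / 8 ^ j ≤ (⌊(4:ℝ) ^ j * ((m:ℝ) / 4 ^ n)⌋ : ℝ) / 8 ^ j +
      (if n < j then (1:ℝ) / 8 ^ n * (1 / 2) ^ (j - n) else 0) := by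
    intro j
    split_ifs with hj
    · -- `j > n`
      obtain ⟨i, hi⟩ : ∃ i, j = n + i := ⟨j - n, by omega⟩
      subst hi
      have e1 : (4:ℝ) ^ (n + i) * ((m:ℝ) / 4 ^ n) = ((4 ^ i * m : ℕ) : ℝ) := by
        push_cast
        rw [pow_add]
        field_simp
      rw [e1, Int.floor_natCast]
      have e2 : (⌊(4:ℝ) ^ (n + i) * t⌋ : ℝ) ≤ (4:ℝ) ^ i * m + 4 ^ i := by
        refine (Int.floor_le _).trans ?_
        rw [lt_div_iff₀ h4n] at h1
        rw [pow_add]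
        have : (0:ℝ) < 4 ^ i := by positivity
        nlinarith
      have e3 : n + i - n = i := by omega
      rw [e3]
      have e4 : (1:ℝ) / 8 ^ n * (1 / 2) ^ i = 4 ^ i / 8 ^ (n + i) := by
        rw [pow_add, one_div_pow]
        have : (8:ℝ) ^ i = 4 ^ i * 2 ^ i := by rw [← mul_pow]; norm_num
        rw [this]
        field_simp
      rw [e4, ← add_div]
      apply div_le_div_of_nonneg_right _ (by positivity)
      push_cast
      exact e2
    · push Not at hj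
      rw [add_zero]
      apply div_le_div_of_nonneg_right _ (by positivity)
      have : ⌊(4:ℝ) ^ j * t⌋ ≤ ⌊(4:ℝ) ^ j * ((m:ℝ) / 4 ^ n)⌋ := by
        obtain ⟨i, hi⟩ : ∃ i, n = j + i := ⟨n - j, by omega⟩
        subst hi
        rw [Int.le_floor]
        have h4i : (0:ℝ) < 4 ^ i := by positivity
        have h4j : (0:ℝ) < 4 ^ j := by positivity
        set z := ⌊(4:ℝ) ^ j * t⌋ with hz
        have hz1 : (z:ℝ) ≤ 4 ^ j * t := Int.floor_le _
        have e5 : (4:ℝ) ^ j * ((m:ℝ) / 4 ^ (j + i)) = m / 4 ^ i := by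
          rw [pow_add]; field_simp
        rw [e5, le_div_iff₀ h4i]
        rw [lt_div_iff₀ h4n, pow_add] at h1
        have h6 : (z:ℝ) * 4 ^ i < m + 1 := by nlinarith
        have h7 : ((z * 4 ^ i : ℤ) : ℝ) < ((m + 1 : ℤ) : ℝ) := by push_cast; exact h6
        have h8 : z * 4 ^ i < (m:ℤ) + 1 := by exact_mod_cast h7
        have h9 : z * 4 ^ i ≤ (m:ℤ) := by omega
        exact_mod_cast h9
      exact_mod_cast this
  have h5 := (summ t).tsum_le_tsum key ((summ _).add hs.summable)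
  rw [(summ _).tsum_add hs.summable, hs.tsum_eq] at h5
  exact h5

/-- the values are covered by `4^n + 1` intervals of length `8^(-n)` -/
theorem image_cover (n : ℕ) : kk '' Set.Icc 0 1 ⊆
    ⋃ m : Fin (4 ^ n + 1), Set.Icc (kk ((m.1:ℝ) / 4 ^ n)) (kk ((m.1:ℝ) / 4 ^ n) + 1 / 8 ^ n) := by
  rintro _ ⟨t, ⟨h0, h1⟩, rfl⟩
  have h4n : (0:ℝ) < 4 ^ n := by positivity
  have hf0 : 0 ≤ (4:ℝ) ^ n * t := by positivity
  have hm1 := Nat.floor_le hf0
  have hm2 := Nat.lt_floor_add_one ((4:ℝ) ^ n * t)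
  set m := ⌊(4:ℝ) ^ n * t⌋₊ with hm
  have hmle : m < 4 ^ n + 1 := by
    have : (m:ℝ) ≤ ((4 ^ n : ℕ) : ℝ) := by
      push_cast
      nlinarith
    have := Nat.cast_le.1 this
    omega
  have ha : (m:ℝ) / 4 ^ n ≤ t := by rw [div_le_iff₀ h4n]; linarith
  have hb : t < ((m:ℝ) + 1) / 4 ^ n := by rw [lt_div_iff₀ h4n]; linarith
  exact Set.mem_iUnion.2 ⟨⟨m, hmle⟩, kk_mono ha, kk_upper n m ha hb⟩

/-- the compact null set of values -/
def KK : Set ℝ := closure (kk '' Set.Icc 0 1)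

theorem KK_cover (n : ℕ) : KK ⊆
    ⋃ m : Fin (4 ^ n + 1), Set.Icc (kk ((m.1:ℝ) / 4 ^ n)) (kk ((m.1:ℝ) / 4 ^ n) + 1 / 8 ^ n) :=
  closure_minimal (image_cover n) (isClosed_iUnion_of_finite (fun _ => isClosed_Icc))

theorem KK_compact : IsCompact KK := by
  apply Metric.isCompact_of_isClosed_isBounded isClosed_closure
  apply Bornology.IsBounded.closure
  apply (Metric.isBounded_Icc (kk 0) (kk 1)).subset
  rintro _ ⟨t, ⟨h0, h1⟩, rfl⟩
  exact ⟨kk_mono h0, kk_mono h1⟩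

theorem KK_null : volume KK = 0 := by
  have hb : ∀ n : ℕ, volume KK ≤ ENNReal.ofReal (2 * (1 / 2) ^ n) := by
    intro n
    refine (measure_mono (KK_cover n)).trans ((measure_iUnion_le _).trans ?_)
    rw [tsum_fintype]
    simp only [Real.volume_Icc, add_sub_cancel_left]
    rw [Finset.sum_const, Finset.card_univ, Fintype.card_fin, nsmul_eq_mul,
      ← ENNReal.ofReal_natCast, ← ENNReal.ofReal_mul (by positivity)]
    apply ENNReal.ofReal_le_ofReal
    push_cast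
    have h4 : (1:ℝ) ≤ 4 ^ n := one_le_pow₀ (by norm_num)
    have h8 : (0:ℝ) < 8 ^ n := by positivity
    have e : ((1:ℝ) / 2) ^ n = 4 ^ n / 8 ^ n := by rw [← div_pow]; norm_num
    rw [e, mul_one_div, mul_div_assoc', div_le_div_iff_of_pos_right h8]
    linarith
  have hlim : Filter.Tendsto (fun n : ℕ => ENNReal.ofReal (2 * (1 / 2) ^ n)) Filter.atTop
      (nhds 0) := by
    have h1 : Filter.Tendsto (fun n : ℕ => (2:ℝ) * (1 / 2) ^ n) Filter.atTop (nhds (2 * 0)) :=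
      (tendsto_pow_atTop_nhds_zero_of_lt_one (by norm_num) (by norm_num)).const_mul 2
    rw [mul_zero] at h1
    have h2 := ENNReal.tendsto_ofReal h1
    rwa [ENNReal.ofReal_zero] at h2
  exact le_antisymm (ge_of_tendsto' hlim hb) zero_le

/-- every level `c` is approached by the function `kk` only near one point, with exponent `3/2` -/
theorem level_point (c : ℝ) : ∃ s ∈ Set.Icc (0:ℝ) 1, ∀ t ∈ Set.Icc (0:ℝ) 1, t ≠ s →
    (|t - s| / 8) ^ ((3:ℝ) / 2) ≤ |c - kk t| := by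
  set A : Set ℝ := {t | t ∈ Set.Icc (0:ℝ) 1 ∧ kk t ≤ c} with hA
  have hbdd : BddAbove A := ⟨1, fun t ht => ht.1.2⟩
  rcases Set.eq_empty_or_nonempty A with hAe | hAne
  · refine ⟨0, ⟨le_refl _, zero_le_one⟩, fun t ht htne => ?_⟩
    have ht0 : 0 < t := lt_of_le_of_ne ht.1 (Ne.symm htne)
    have h0 : ¬ kk 0 ≤ c := fun h => by
      have : (0:ℝ) ∈ A := ⟨⟨le_refl _, zero_le_one⟩, h⟩
      rw [hAe] at this
      exact this
    push Not at h0
    have h1 := kk_lower ht0 (by linarith [ht.2])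
    rw [sub_zero] at h1
    have h2 : (|t - 0| / 8) ^ ((3:ℝ) / 2) ≤ (t / 4) ^ ((3:ℝ) / 2) := by
      rw [sub_zero, abs_of_pos ht0]
      exact Real.rpow_le_rpow (by positivity) (by linarith) (by norm_num)
    rw [abs_sub_comm c]
    refine h2.trans (h1.trans ?_)
    refine le_trans ?_ (le_abs_self _)
    linarith
  · set s := sSup A with hs
    have hs0 : 0 ≤ s := by
      obtain ⟨t, ht⟩ := hAne
      exact ht.1.1.trans (le_csSup hbdd ht)
    have hs1 : s ≤ 1 := csSup_le hAne (fun t ht => ht.1.2)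
    refine ⟨s, ⟨hs0, hs1⟩, fun t ht htne => ?_⟩
    rcases lt_or_gt_of_ne htne with hlt | hgt
    · -- `t < s`
      have hmid : (t + s) / 2 < s := by linarith
      obtain ⟨t', ht'A, ht'⟩ := exists_lt_of_lt_csSup hAne hmid
      have h1 := kk_lower (s := t) (t := t') (by linarith) (by linarith [ht'A.1.2, ht.1])
      have h2 : (|t - s| / 8) ^ ((3:ℝ) / 2) ≤ ((t' - t) / 4) ^ ((3:ℝ) / 2) := by
        rw [abs_of_neg (by linarith)]
        exact Real.rpow_le_rpow (by linarith) (by linarith) (by norm_num)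
      refine h2.trans (h1.trans ?_)
      refine le_trans ?_ (le_abs_self _)
      linarith [ht'A.2]
    · -- `s < t`
      have hnot : ¬ kk ((t + s) / 2) ≤ c := fun h => by
        have : (t + s) / 2 ∈ A := ⟨⟨by linarith, by linarith [ht.2]⟩, h⟩
        have := le_csSup hbdd this
        linarith
      push Not at hnot
      have h1 := kk_lower (s := (t + s) / 2) (t := t) (by linarith) (by linarith [ht.2])
      have h2 : (|t - s| / 8) ^ ((3:ℝ) / 2) ≤ ((t - (t + s) / 2) / 4) ^ ((3:ℝ) / 2) := by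
        rw [abs_of_pos (by linarith)]
        exact Real.rpow_le_rpow (by linarith) (by linarith) (by norm_num)
      rw [abs_sub_comm c]
      refine h2.trans (h1.trans ?_)
      refine le_trans ?_ (le_abs_self _)
      linarith

end Pool.Agent.W770.StripA
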