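import Pool.Agent.W770.StripA

set_option autoImplicit false

namespace Pool.Agent.W770.StripB

open MeasureTheory Pool.Agent.W770.StripA

/-- `{y : τ ≤ y^2 ≤ τ + w}` has measure at most `w / √|τ|`. -/
theorem sq_slab (τ w : ℝ) (hτ : τ ≠ 0) (hw : 0 ≤ w) :
    volume {y : ℝ | τ ≤ y ^ 2 ∧ y ^ 2 ≤ τ + w} ≤ ENNReal.ofReal (w / Real.sqrt |τ|) := by
  rcases lt_or_gt_of_ne hτ with h | h
  · -- `τ < 0`
    have h1 : {y : ℝ | τ ≤ y ^ 2 ∧ y ^ 2 ≤ τ + w} ⊆
        Set.Icc (-Real.sqrt (τ + w)) (Real.sqrt (τ + w)) := by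
      rintro y ⟨-, hy⟩
      have := Real.abs_le_sqrt hy
      rw [abs_le] at this
      exact this
    refine (measure_mono h1).trans ?_
    rw [Real.volume_Icc]
    apply ENNReal.ofReal_le_ofReal
    rw [abs_of_neg h]
    have h2 : 0 < Real.sqrt (-τ) := Real.sqrt_pos.2 (by linarith)
    rw [le_div_iff₀ h2]
    rcases le_or_gt (τ + w) 0 with h3 | h3
    · rw [Real.sqrt_eq_zero_of_nonpos h3]; linarith
    · have h4 := Real.sq_sqrt h3.le
      have h5 := Real.sq_sqrt (show (0:ℝ) ≤ -τ by linarith)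
      nlinarith [sq_nonneg (Real.sqrt (τ + w) - Real.sqrt (-τ))]
  · have h1 : {y : ℝ | τ ≤ y ^ 2 ∧ y ^ 2 ≤ τ + w} ⊆
        Set.Icc (Real.sqrt τ) (Real.sqrt (τ + w)) ∪ Set.Icc (-Real.sqrt (τ + w)) (-Real.sqrt τ) := by
      rintro y ⟨hy1, hy2⟩
      have h2 := Real.abs_le_sqrt hy2
      have h3 := Real.sqrt_le_sqrt hy1
      rw [Real.sqrt_sq_eq_abs] at h3
      rcases le_total 0 y with h4 | h4
      · left
        rw [abs_of_nonneg h4] at h2 h3
        exact ⟨h3, h2⟩
      · right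
        rw [abs_of_nonpos h4] at h2 h3
        constructor <;> linarith
    refine (measure_mono h1).trans ((measure_union_le _ _).trans ?_)
    rw [Real.volume_Icc, Real.volume_Icc, ← ENNReal.ofReal_add]
    · apply ENNReal.ofReal_le_ofReal
      rw [abs_of_pos h]
      have h2 : 0 < Real.sqrt τ := Real.sqrt_pos.2 h
      rw [le_div_iff₀ h2]
      have h3 := Real.sqrt_le_sqrt (show τ ≤ τ + w by linarith)
      have h4 := Real.sq_sqrt h.le
      have h5 := Real.sq_sqrt (show (0:ℝ) ≤ τ + w by linarith)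
      nlinarith [sq_nonneg (Real.sqrt (τ + w) - Real.sqrt τ)]
    · have := Real.sqrt_le_sqrt (show τ ≤ τ + w by linarith)
      linarith
    · have := Real.sqrt_le_sqrt (show τ ≤ τ + w by linarith)
      linarith

/-- the section of a strip for fixed `k` -/
def sec (p q c w k : ℝ) : Set ℝ :=
  {x | x ∈ Set.Icc (0:ℝ) 1 ∧ c ≤ p * x + q * (x ^ 2 + k) ∧ p * x + q * (x ^ 2 + k) ≤ c + w}

theorem sec_lip (p q c w k : ℝ) (hpq : p ^ 2 + q ^ 2 = 1) (hq : |q| ≤ 1 / 4) (hw : 0 ≤ w) :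
    volume (sec p q c w k) ≤ ENNReal.ofReal (8 * w) := by
  -- the function is expanding
  have hp : 3 / 4 ≤ |p| := by
    have h1 : q ^ 2 ≤ (1 / 4) ^ 2 := by
      rw [← sq_abs q]
      exact pow_le_pow_left₀ (abs_nonneg q) hq 2
    by_contra hc
    push Not at hc
    have h2 : p ^ 2 < (3 / 4) ^ 2 := by
      rw [← sq_abs p]
      exact pow_lt_pow_left₀ hc (abs_nonneg p) (by norm_num)
    norm_num at h1 h2
    linarith
  have key : ∀ x ∈ sec p q c w k, ∀ y ∈ sec p q c w k, |x - y| ≤ 4 * w := by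
    rintro x ⟨hx, hx1, hx2⟩ y ⟨hy, hy1, hy2⟩
    have h1 : |(p * x + q * (x ^ 2 + k)) - (p * y + q * (y ^ 2 + k))| ≤ w := by
      rw [abs_le]; constructor <;> linarith
    have h2 : (p * x + q * (x ^ 2 + k)) - (p * y + q * (y ^ 2 + k)) =
        (x - y) * (p + q * (x + y)) := by ring
    rw [h2, abs_mul] at h1
    have h3 : 1 / 4 ≤ |p + q * (x + y)| := by
      have h4 : |q * (x + y)| ≤ 1 / 2 := by
        rw [abs_mul]
        have h5 : |x + y| ≤ 2 := by
          rw [abs_le]; constructor <;> linarith [hx.1, hx.2, hy.1, hy.2]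
        calc |q| * |x + y| ≤ 1 / 4 * 2 := mul_le_mul hq h5 (abs_nonneg _) (by norm_num)
          _ = 1 / 2 := by norm_num
      have h5 := abs_sub_abs_le_abs_sub p (-(q * (x + y)))
      rw [abs_neg, sub_neg_eq_add] at h5
      linarith
    nlinarith [abs_nonneg (x - y)]
  rcases Set.eq_empty_or_nonempty (sec p q c w k) with he | ⟨x0, hx0⟩
  · rw [he]; simp
  · have hsub : sec p q c w k ⊆ Set.Icc (x0 - 4 * w) (x0 + 4 * w) := by
      intro y hy
      have := key y hy x0 hx0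
      rw [abs_le] at this
      constructor <;> linarith [this.1, this.2]
    refine (measure_mono hsub).trans ?_
    rw [Real.volume_Icc]
    apply ENNReal.ofReal_le_ofReal
    linarith

theorem sec_sq (p q c w : ℝ) (hq : 1 / 4 < |q|) (hw : 0 ≤ w) :
    ∃ c' : ℝ, ∀ k, c' - k ≠ 0 → volume (sec p q c w k) ≤
      ENNReal.ofReal (4 * w / Real.sqrt |c' - k|) := by
  have hq0 : q ≠ 0 := by
    rintro rfl
    norm_num at hq
  -- the shift
  set β : ℝ := p / (2 * q) with hβ
  have hcomp : ∀ x k : ℝ, p * x + q * (x ^ 2 + k) = q * ((x + β) ^ 2 + k - β ^ 2) := by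
    intro x k
    rw [hβ]
    field_simp
    ring
  set w' : ℝ := w / |q| with hw'
  have hw'4 : w' ≤ 4 * w := by
    rw [hw', div_le_iff₀ (by linarith)]
    nlinarith
  have hw'0 : 0 ≤ w' := by positivity
  -- lower end
  obtain ⟨c0, hc0⟩ : ∃ c0 : ℝ, ∀ z : ℝ, c ≤ q * z → q * z ≤ c + w → c0 ≤ z ∧ z ≤ c0 + w' := by
    rcases lt_or_gt_of_ne hq0 with h | h
    · refine ⟨(c + w) / q, fun z h1 h2 => ?_⟩
      have hw2 : w' = -(w / q) := by rw [hw', abs_of_neg h, div_neg]
      constructor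
      · rw [div_le_iff_of_neg h]; linarith
      · have : z ≤ c / q := by rw [le_div_iff_of_neg h]; linarith
        rw [hw2, add_div]; linarith
    · refine ⟨c / q, fun z h1 h2 => ?_⟩
      have hw2 : w' = w / q := by rw [hw', abs_of_pos h]
      constructor
      · rw [div_le_iff₀ h]; linarith
      · rw [hw2, ← add_div, le_div_iff₀ h]; linarith
  refine ⟨c0 + β ^ 2, fun k hk => ?_⟩
  have hsub : sec p q c w k ⊆ (fun x => x + β) ⁻¹'
      {y : ℝ | (c0 + β ^ 2 - k) ≤ y ^ 2 ∧ y ^ 2 ≤ (c0 + β ^ 2 - k) + w'} := by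
    rintro x ⟨-, hx1, hx2⟩
    rw [hcomp] at hx1 hx2
    obtain ⟨h1, h2⟩ := hc0 _ hx1 hx2
    constructor <;> simp only <;> linarith
  refine (measure_mono hsub).trans ?_
  rw [measure_preimage_add_right]
  refine (sq_slab _ _ hk hw'0).trans ?_
  apply ENNReal.ofReal_le_ofReal
  apply div_le_div_of_nonneg_right hw'4 (Real.sqrt_nonneg _)

/-- the weight -/
noncomputable def gg (u : ℝ) : ℝ := (|u| / 8) ^ (-((3:ℝ) / 4))

theorem gg_nonneg (u : ℝ) : 0 ≤ gg u := Real.rpow_nonneg (by positivity) _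

theorem gg_int : IntegrableOn gg (Set.Icc (-1) 1) := by
  have h1 : IntervalIntegrable (fun x : ℝ => x ^ (-((3:ℝ) / 4))) volume 0 1 :=
    intervalIntegral.intervalIntegrable_rpow' (by norm_num)
  have h2 : IntegrableOn (fun x : ℝ => x ^ (-((3:ℝ) / 4))) (Set.Ioc 0 1) :=
    (intervalIntegrable_iff_integrableOn_Ioc_of_le zero_le_one).1 h1
  have h3 : IntegrableOn gg (Set.Ioc 0 1) := by
    have h4 : IntegrableOn (fun x : ℝ => (1 / 8 : ℝ) ^ (-((3:ℝ) / 4)) * x ^ (-((3:ℝ) / 4)))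
      (Set.Ioc 0 1) := h2.const_mul ((1 / 8 : ℝ) ^ (-((3:ℝ) / 4)))
    refine h4.congr_fun ?_ measurableSet_Ioc
    intro x hx
    simp only [gg]
    rw [abs_of_pos hx.1, ← Real.mul_rpow (by norm_num) hx.1.le]
    congr 1
    ring
  have h5 : IntegrableOn gg (Set.Ico (-1) 0) := by
    have h6 : MeasurePreserving (fun x : ℝ => -x) volume volume :=
      Measure.measurePreserving_neg volume
    have h7 := (h6.integrableOn_comp_preimage (MeasurableEquiv.neg ℝ).measurableEmbedding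
      (f := gg) (s := Set.Ioc 0 1)).2 h3
    have h8 : (fun x : ℝ => -x) ⁻¹' Set.Ioc 0 1 = Set.Ico (-1) 0 := by
      ext x
      simp only [Set.mem_preimage, Set.mem_Ioc, Set.mem_Ico]
      constructor
      · rintro ⟨h1, h2⟩; constructor <;> linarith
      · rintro ⟨h1, h2⟩; constructor <;> linarith
    rw [h8] at h7
    refine h7.congr_fun ?_ measurableSet_Ico
    intro x hx
    simp only [Function.comp, gg, abs_neg]
  have h9 : Set.Icc (-1:ℝ) 1 = (Set.Ico (-1) 0 ∪ {0}) ∪ Set.Ioc 0 1 := by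
    ext x
    simp only [Set.mem_Icc, Set.mem_union, Set.mem_Ico, Set.mem_singleton_iff, Set.mem_Ioc]
    constructor
    · rintro ⟨h1, h2⟩
      rcases lt_trichotomy x 0 with h | h | h
      · exact Or.inl (Or.inl ⟨h1, h⟩)
      · exact Or.inl (Or.inr h)
      · exact Or.inr ⟨h, h2⟩
    · rintro ((⟨h1, h2⟩ | h) | ⟨h1, h2⟩)
      · constructor <;> linarith
      · rw [h]; norm_num
      · constructor <;> linarith
  rw [h9]
  exact (h5.union (integrableOn_singleton (by simp) (by simp))).union h3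

/-- the constant -/
noncomputable def CC : ENNReal := ∫⁻ u in Set.Icc (-1:ℝ) 1, ENNReal.ofReal (gg u)

theorem CC_ne_top : CC ≠ ⊤ := by
  have h := gg_int.hasFiniteIntegral
  rw [hasFiniteIntegral_iff_ofReal (Filter.Eventually.of_forall gg_nonneg)] at h
  exact h.ne

theorem gg_shift (s : ℝ) (hs : s ∈ Set.Icc (0:ℝ) 1) :
    ∫⁻ t in Set.Icc (0:ℝ) 1, ENNReal.ofReal (gg (t - s)) ≤ CC := by
  have hsh := lintegral_sub_right_eq_self (μ := (volume : Measure ℝ))
    (fun u => (Set.Icc (-1:ℝ) 1).indicator (fun u => ENNReal.ofReal (gg u)) u) s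
  rw [CC, ← lintegral_indicator measurableSet_Icc, ← lintegral_indicator measurableSet_Icc,
    ← hsh]
  refine lintegral_mono (fun t => ?_)
  by_cases ht : t ∈ Set.Icc (0:ℝ) 1
  · rw [Set.indicator_of_mem ht, Set.indicator_of_mem]
    exact ⟨by linarith [ht.1, hs.2], by linarith [ht.2, hs.1]⟩
  · rw [Set.indicator_of_notMem ht]
    exact zero_le

/-- the parametrisation `(x, t) ↦ (x, x^2 + k(t))`; the preimage of a strip -/
def pre (p q c w : ℝ) : Set (ℝ × ℝ) :=
  {z | (z.1 ∈ Set.Icc (0:ℝ) 1 ∧ z.2 ∈ Set.Icc (0:ℝ) 1) ∧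
    c ≤ p * z.2 + q * (z.2 ^ 2 + kk z.1) ∧ p * z.2 + q * (z.2 ^ 2 + kk z.1) ≤ c + w}

theorem pre_meas (p q c w : ℝ) : MeasurableSet (pre p q c w) := by
  have hk : Measurable kk := kk_mono.measurable
  have hf : Measurable (fun z : ℝ × ℝ => p * z.2 + q * (z.2 ^ 2 + kk z.1)) := by fun_prop
  have h1 : MeasurableSet {z : ℝ × ℝ | z.1 ∈ Set.Icc (0:ℝ) 1 ∧ z.2 ∈ Set.Icc (0:ℝ) 1} :=
    measurableSet_Icc.prod measurableSet_Icc
  exact h1.inter ((measurableSet_le measurable_const hf).inter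
    (measurableSet_le hf measurable_const))

/-- the constant of the strip estimate -/
noncomputable def DD : ENNReal := ENNReal.ofReal 8 + ENNReal.ofReal 4 * CC

theorem DD_ne_top : DD ≠ ⊤ :=
  ENNReal.add_ne_top.2 ⟨ENNReal.ofReal_ne_top, ENNReal.mul_ne_top ENNReal.ofReal_ne_top CC_ne_top⟩

theorem pre_volume (p q c w : ℝ) (hpq : p ^ 2 + q ^ 2 = 1) (hw : 0 ≤ w) :
    volume (pre p q c w) ≤ DD * ENNReal.ofReal w := by
  have hsec : ∀ t : ℝ, volume (Prod.mk t ⁻¹' pre p q c w) ≤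
      (Set.Icc (0:ℝ) 1).indicator (fun t => volume (sec p q c w (kk t))) t := by
    intro t
    by_cases ht : t ∈ Set.Icc (0:ℝ) 1
    · rw [Set.indicator_of_mem ht]
      apply measure_mono
      rintro x ⟨⟨-, hx⟩, h1, h2⟩
      exact ⟨hx, h1, h2⟩
    · rw [Set.indicator_of_notMem ht]
      have : Prod.mk t ⁻¹' pre p q c w = ∅ := by
        ext x
        simp only [Set.mem_preimage, Set.mem_empty_iff_false, iff_false]
        intro hx
        exact ht hx.1.1
      rw [this]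
      simp
  rw [Measure.volume_eq_prod, Measure.prod_apply (pre_meas p q c w)]
  refine (lintegral_mono hsec).trans ?_
  rw [lintegral_indicator measurableSet_Icc]
  rcases le_or_gt |q| (1 / 4) with hq | hq
  · calc ∫⁻ t in Set.Icc (0:ℝ) 1, volume (sec p q c w (kk t)) ≤
        ∫⁻ _ in Set.Icc (0:ℝ) 1, ENNReal.ofReal (8 * w) :=
          lintegral_mono (fun t => sec_lip p q c w _ hpq hq hw)
      _ = ENNReal.ofReal (8 * w) := by simp
      _ = ENNReal.ofReal 8 * ENNReal.ofReal w := ENNReal.ofReal_mul (by norm_num)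
      _ ≤ DD * ENNReal.ofReal w := by
          gcongr
          exact le_self_add
  · obtain ⟨c', hc'⟩ := sec_sq p q c w hq hw
    obtain ⟨s, hs, hs'⟩ := level_point c'
    have hae : ∀ᵐ t ∂(volume.restrict (Set.Icc (0:ℝ) 1)), volume (sec p q c w (kk t)) ≤
        ENNReal.ofReal (4 * w) * ENNReal.ofReal (gg (t - s)) := by
      have h1 : ∀ᵐ t ∂(volume.restrict (Set.Icc (0:ℝ) 1)), t ≠ s := by
        apply ae_restrict_of_ae
        have : (volume : Measure ℝ) {s} = 0 := by simp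
        rw [ae_iff]
        simpa using this
      filter_upwards [h1, ae_restrict_mem measurableSet_Icc] with t hts htI
      have h2 := hs' t htI hts
      have h3 : 0 < |t - s| := abs_pos.2 (sub_ne_zero.2 hts)
      have h4 : 0 < (|t - s| / 8) ^ ((3:ℝ) / 2) := Real.rpow_pos_of_pos (by positivity) _
      have h5 : c' - kk t ≠ 0 := by
        intro h
        rw [h, abs_zero] at h2
        linarith
      refine (hc' _ h5).trans ?_
      rw [← ENNReal.ofReal_mul (by linarith)]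
      apply ENNReal.ofReal_le_ofReal
      rw [div_eq_mul_inv]
      apply mul_le_mul_of_nonneg_left _ (by linarith)
      have h6 : Real.sqrt ((|t - s| / 8) ^ ((3:ℝ) / 2)) = (|t - s| / 8) ^ ((3:ℝ) / 4) := by
        rw [Real.sqrt_eq_rpow, ← Real.rpow_mul (by positivity)]
        norm_num
      have h7 : (|t - s| / 8) ^ ((3:ℝ) / 4) ≤ Real.sqrt |c' - kk t| := by
        rw [← h6]
        exact Real.sqrt_le_sqrt h2
      rw [gg, Real.rpow_neg (by positivity)]
      exact inv_anti₀ (Real.rpow_pos_of_pos (by positivity) _) h7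
    refine (lintegral_mono_ae hae).trans ?_
    rw [lintegral_const_mul' _ _ ENNReal.ofReal_ne_top]
    calc ENNReal.ofReal (4 * w) * ∫⁻ t in Set.Icc (0:ℝ) 1, ENNReal.ofReal (gg (t - s)) ≤
        ENNReal.ofReal (4 * w) * CC := by
          gcongr
          exact gg_shift s hs
      _ = (ENNReal.ofReal 4 * CC) * ENNReal.ofReal w := by
          rw [ENNReal.ofReal_mul (by norm_num)]
          ring
      _ ≤ DD * ENNReal.ofReal w := by
          gcongr
          exact le_add_self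

/-- **The main estimate.** If the set of all `(x, x^2 + k(t))` is covered by countably many slabs,
the total width is bounded below. -/
theorem cover_bound {ι : Type} [Countable ι] (p q c w : ι → ℝ)
    (hpq : ∀ i, p i ^ 2 + q i ^ 2 = 1) (hw : ∀ i, 0 ≤ w i)
    (hcov : ∀ t ∈ Set.Icc (0:ℝ) 1, ∀ x ∈ Set.Icc (0:ℝ) 1, ∃ i,
      c i ≤ p i * x + q i * (x ^ 2 + kk t) ∧ p i * x + q i * (x ^ 2 + kk t) ≤ c i + w i) :
    1 ≤ DD * ∑' i, ENNReal.ofReal (w i) := by
  have h1 : (Set.Icc (0:ℝ) 1 ×ˢ Set.Icc (0:ℝ) 1 : Set (ℝ × ℝ)) ⊆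
      ⋃ i, pre (p i) (q i) (c i) (w i) := by
    rintro ⟨t, x⟩ ⟨ht, hx⟩
    obtain ⟨i, hi⟩ := hcov t ht x hx
    exact Set.mem_iUnion.2 ⟨i, ⟨ht, hx⟩, hi⟩
  have h2 : volume (Set.Icc (0:ℝ) 1 ×ˢ Set.Icc (0:ℝ) 1 : Set (ℝ × ℝ)) = 1 := by
    rw [Measure.volume_eq_prod, Measure.prod_prod]
    simp
  rw [← h2]
  refine (measure_mono h1).trans ((measure_iUnion_le _).trans ?_)
  rw [← ENNReal.tsum_mul_left]
  exact ENNReal.tsum_le_tsum (fun i => pre_volume _ _ _ _ (hpq i) (hw i))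

/-- the null compact set of the points `(x, x^2 + k)`, `0 ≤ x ≤ 1`, `k ∈ KK` -/
def EE : Set (ℝ × ℝ) := {z | z.1 ∈ Set.Icc (0:ℝ) 1 ∧ z.2 - z.1 ^ 2 ∈ KK}

theorem EE_compact : IsCompact EE := by
  have h1 : EE = (fun z : ℝ × ℝ => (z.1, z.1 ^ 2 + z.2)) '' (Set.Icc (0:ℝ) 1 ×ˢ KK) := by
    ext ⟨x, y⟩
    constructor
    · rintro ⟨h1, h2⟩
      exact ⟨(x, y - x ^ 2), ⟨h1, h2⟩, by simp⟩
    · rintro ⟨⟨x', k⟩, ⟨h1, h2⟩, h3⟩
      simp only [Prod.mk.injEq] at h3
      obtain ⟨rfl, rfl⟩ := h3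
      exact ⟨h1, by simpa using h2⟩
  rw [h1]
  exact (isCompact_Icc.prod KK_compact).image (by fun_prop)

theorem EE_null : volume EE = 0 := by
  rw [Measure.volume_eq_prod, Measure.prod_apply EE_compact.isClosed.measurableSet]
  rw [lintegral_eq_zero_iff']
  · refine Filter.Eventually.of_forall (fun x => ?_)
    have h1 : Prod.mk x ⁻¹' EE ⊆ (fun y => y - x ^ 2) ⁻¹' KK := by
      rintro y ⟨-, hy⟩
      exact hy
    have h2 : volume ((fun y => y - x ^ 2) ⁻¹' KK) = 0 := by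
      simp only [sub_eq_add_neg]
      rw [measure_preimage_add_right]
      exact KK_null
    exact measure_mono_null h1 h2
  · exact (measurable_measure_prodMk_left EE_compact.isClosed.measurableSet).aemeasurable

end Pool.Agent.W770.StripB
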